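import Mathlib

set_option autoImplicit false

namespace Pool.Agent.H.MP_fe632d_an

open Set Filter Topology InnerProductSpace Finset
open scoped InnerProductSpace

variable {H : Type*} [NormedAddCommGroup H] [InnerProductSpace ℂ H] [CompleteSpace H]

omit [CompleteSpace H] in
theorem pars {ι : Type*} (b : HilbertBasis ι ℂ H) (x : H) :
    HasSum (fun n => ‖⟪b n, x⟫_ℂ‖ ^ 2) (‖x‖ ^ 2) := by
  have := Complex.hasSum_re (b.hasSum_inner_mul_inner x x)
  rw [show (⟪x, x⟫_ℂ).re = ‖x‖ ^ 2 from inner_self_eq_norm_sq (𝕜 := ℂ) x] at this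
  convert this using 2 with n
  rw [← inner_conj_symm x, Complex.conj_mul']
  norm_cast

theorem pp {ι : Type*} (b : HilbertBasis ι ℂ H) (o : ι) (N : ℕ) (N0 : 0 < N) (u : ℕ → H →ₗᵢ[ℂ] H)
    (g : ℕ → ι ≃ ι) (A : ℕ → Set ι) (hu : ∀ i n, u i (b n) = b (g i n)) (ho : ∀ i, g i o = o)
    (hA : Pairwise (Function.onFun Disjoint A)) (hg : ∀ i n, n ≠ o → n ∉ A i → g i n ∈ A i)
    (δ : ℝ) (d0 : 0 < δ) :
    ‖(N : ℂ)⁻¹ • ∑ i ∈ range N, (u i).toContinuousLinearMap - rankOne ℂ (b o) (b o)‖ ≤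
      δ + 1 / (δ * N) := by
  classical
  have n0 : (0 : ℝ) < N := by exact_mod_cast N0
  have I : ∀ z : H, ‖z‖ = 1 → ∃ a : ℕ → ℝ, (∀ i, HasSum ((A i).indicator fun n => ‖⟪b n, z⟫_ℂ‖ ^ 2) (a i)) ∧
      ∑ i ∈ range N, a i ≤ 1 := fun z hz => by
    have p := pars b z
    have q := fun i => (p.summable.indicator (A i)).hasSum
    refine ⟨_, q, (hasSum_le (fun n => ?_) (hasSum_sum fun i _ => q i) p).trans_eq (by simp [hz])⟩
    rw [← Finset.indicator_biUnion_apply _ _ fun i _ j _ h => hA h]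
    exact indicator_le_self' (fun _ _ => by positivity) n
  refine ContinuousLinearMap.opNorm_le_of_unit_norm (by positivity) fun x hx => ?_
  generalize hT : (N : ℂ)⁻¹ • ∑ i ∈ range N, (u i).toContinuousLinearMap - rankOne ℂ (b o) (b o) = T
  obtain ⟨y, hy, e⟩ : ∃ y : H, ‖y‖ = 1 ∧ ‖T x‖ ≤ ‖⟪y, T x⟫_ℂ‖ := by
    by_cases h : T x = 0
    · exact ⟨x, hx, by simp [h]⟩
    · refine ⟨(‖T x‖ : ℂ)⁻¹ • T x, norm_smul_inv_norm (𝕜 := ℂ) h, ?_⟩
      simp [inner_smul_left, sq, h]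
  obtain ⟨a, a1, a2⟩ := I x hx
  obtain ⟨c, c1, c2⟩ := I y hy
  have k : ∀ i, ‖⟪y, u i x⟫_ℂ - ⟪y, b o⟫_ℂ * ⟪b o, x⟫_ℂ‖ ≤
      δ / 2 * (‖y‖ ^ 2 + ‖x‖ ^ 2) + 1 / (2 * δ) * (a i + c i) := fun i => by
    have s := (g i).hasSum_iff.2 (b.hasSum_inner_mul_inner y (u i x))
    have := (hasSum_ite_sub_hasSum s o).norm_le_of_bounded
      ((((g i).hasSum_iff.2 (pars b y)).add (pars b x)).mul_left (δ / 2) |>.add
        (((a1 i).add ((g i).hasSum_iff.2 (c1 i))).mul_left (1 / (2 * δ)))) fun n => by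
      have f : ⟪b (g i n), u i x⟫_ℂ = ⟪b n, x⟫_ℂ := by rw [← hu, (u i).inner_map_map]
      have p0 := indicator_nonneg (s := A i) (f := fun n => ‖⟪b n, x⟫_ℂ‖ ^ 2) (fun _ _ => by positivity) n
      have p1 := indicator_nonneg (s := A i) (f := fun n => ‖⟪b n, y⟫_ℂ‖ ^ 2)
        (fun _ _ => by positivity) (g i n)
      have am : ∀ s t : ℝ, s * t ≤ δ / 2 * s ^ 2 + 1 / (2 * δ) * t ^ 2 := fun s t => by
        have : 0 ≤ (δ * s - t) ^ 2 / (2 * δ) := by positivity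
        refine sub_nonneg.1 (this.trans_eq ?_)
        field_simp
        ring
      have d1 : 0 < 1 / (2 * δ) := by positivity
      simp only [Function.comp]
      split_ifs with h
      · rw [norm_zero]; positivity
      rw [norm_mul, f, norm_inner_symm y]
      by_cases h' : n ∈ A i
      · rw [indicator_of_mem h']
        nlinarith [am ‖⟪b (g i n), y⟫_ℂ‖ ‖⟪b n, x⟫_ℂ‖, mul_nonneg d1.le p1,
          mul_nonneg d0.le (sq_nonneg ‖⟪b n, x⟫_ℂ‖)]
      · rw [indicator_of_mem (hg i n h h')]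
        nlinarith [am ‖⟪b n, x⟫_ℂ‖ ‖⟪b (g i n), y⟫_ℂ‖, mul_nonneg d1.le p0,
          mul_nonneg d0.le (sq_nonneg ‖⟪b (g i n), y⟫_ℂ‖)]
    simp only [Function.comp] at this
    rwa [← hu i o, (u i).inner_map_map, hu, ho] at this
  have : ⟪y, T x⟫_ℂ = (N : ℂ)⁻¹ * ∑ i ∈ range N, (⟪y, u i x⟫_ℂ - ⟪y, b o⟫_ℂ * ⟪b o, x⟫_ℂ) := by
    have : (N : ℂ) ≠ 0 := by exact_mod_cast N0.ne'
    simp [← hT, inner_sub_right, inner_smul_right, inner_sum, mul_sub, this, mul_comm ⟪b o, x⟫_ℂ]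
  rw [this, norm_mul, norm_inv, Complex.norm_natCast] at e
  have f := (norm_sum_le _ _).trans (sum_le_sum fun i (_ : i ∈ Finset.range N) => k i)
  simp only [hx, hy, sum_add_distrib, sum_const, card_range, nsmul_eq_mul, ← mul_sum] at f
  refine e.trans ((inv_mul_le_iff₀ n0).2 (f.trans ?_))
  have := mul_le_mul_of_nonneg_left (add_le_add a2 c2) (show 0 ≤ 1 / (2 * δ) by positivity)
  refine (add_le_add_right this _).trans_eq ?_
  field_simp
  ring

theorem cpt (S : Submodule ℂ (H →L[ℂ] H)) (hS : IsClosed (S : Set (H →L[ℂ] H)))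
    (h : ∀ f g, rankOne ℂ f g ∈ S) (K : H →L[ℂ] H) (hK : IsCompactOperator K) : K ∈ S := by
  refine hS.closure_subset (Metric.mem_closure_iff.2 fun ε e0 => ?_)
  obtain ⟨t, t1, t2⟩ := Metric.totallyBounded_iff.1
    (hK.isCompact_closure_image_closedBall (f := (K : H →ₗ[ℂ] H)) 1).totallyBounded (ε / 2) (by linarith)
  have := FiniteDimensional.span_of_finite ℂ t1
  let F := Submodule.span ℂ t
  refine ⟨F.starProjection ∘L K, ?_, ?_⟩
  · rw [(stdOrthonormalBasis ℂ F).starProjection_eq_sum_rankOne, ContinuousLinearMap.finsetSum_comp]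
    exact S.sum_mem fun i _ => by rw [rankOne_comp]; exact h _ _
  rw [dist_eq_norm]
  refine (ContinuousLinearMap.opNorm_le_of_unit_norm (C := ε / 2) (by linarith) fun x hx => ?_).trans_lt
    (by linarith)
  obtain ⟨y, y1, y2⟩ := mem_iUnion₂.1 (t2 (subset_closure ⟨x, by simp [hx], rfl⟩))
  rw [sub_apply, ContinuousLinearMap.comp_apply, Submodule.starProjection_minimal]
  exact (ciInf_le ⟨0, by rintro _ ⟨z, rfl⟩; exact norm_nonneg _⟩
    (⟨y, Submodule.subset_span y1⟩ : F)).trans (mem_ball_iff_norm.1 y2).le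

open MeasureTheory ProbabilityTheory

/-- Lebesgue measure on the open unit interval -/
noncomputable def U : Measure (Set.Ioo (0 : ℝ) 1) := volume.comap Subtype.val

instance : IsProbabilityMeasure U :=
  ⟨by rw [U, (MeasurableEmbedding.subtype_coe measurableSet_Ioo).comap_apply,
    Subtype.coe_image_univ]; simp⟩

theorem quant (ν : Measure ℝ) [IsProbabilityMeasure ν] [NullSingletonClass ν] :
    ∃ q : Set.Ioo (0 : ℝ) 1 → ℝ, MeasurableEmbedding q ∧ MeasurePreserving q U ν := by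
  let q : Set.Ioo (0 : ℝ) 1 → ℝ := fun u => sInf {x | u.1 ≤ cdf ν x}
  have c : Continuous (cdf ν) := continuous_iff_continuousAt.2 fun a =>
    (monotone_cdf ν).continuousAt_iff_leftLim_eq_rightLim.2 (by
      have := (cdf ν).measure_singleton a
      rw [measure_cdf, measure_singleton, eq_comm, ENNReal.ofReal_eq_zero] at this
      rw [(cdf ν).rightLim_eq]
      linarith [(monotone_cdf ν).leftLim_le (le_refl a)])
  have bd : ∀ u : Set.Ioo (0 : ℝ) 1, BddBelow {x | u.1 ≤ cdf ν x} := fun u => by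
    obtain ⟨a, h⟩ := ((tendsto_cdf_atBot ν).eventually (gt_mem_nhds u.2.1)).exists
    exact ⟨a, fun x hx => le_of_not_gt fun c => h.not_ge (hx.trans (monotone_cdf ν c.le))⟩
  have m : ∀ u : Set.Ioo (0 : ℝ) 1, u.1 ≤ cdf ν (q u) := fun u =>
    (isClosed_le continuous_const c).csInf_mem
      ((tendsto_cdf_atTop ν).eventually (le_mem_nhds u.2.2)).exists (bd u)
  have G : ∀ u x, q u ≤ x ↔ u.1 ≤ cdf ν x := fun u x =>
    ⟨fun h => (m u).trans (monotone_cdf ν h), csInf_le (bd u)⟩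
  have e : ∀ u, cdf ν (q u) = u.1 := fun u => le_antisymm (le_of_tendsto
    (c.continuousWithinAt (s := Set.Iio (q u)) (x := q u))
    (eventually_nhdsWithin_of_forall fun x hx => (lt_of_not_ge (mt (G u x).2 (not_le.2 hx))).le)) (m u)
  have mq : Measurable q := Monotone.measurable fun u v h => (G _ _).2 (le_trans h (m v))
  have := (measurableSet_Ioo (a := (0 : ℝ)) (b := 1)).standardBorel
  refine ⟨q, mq.measurableEmbedding fun u v h => Subtype.ext (by rw [← e, h, e]), mq,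
    Measure.ext_of_Iic _ _ fun x => ?_⟩
  rw [Measure.map_apply mq measurableSet_Iic, ← ofReal_cdf, U,
    (MeasurableEmbedding.subtype_coe measurableSet_Ioo).comap_apply,
    show Subtype.val '' (q ⁻¹' Set.Iic x) = Set.Ioc 0 (cdf ν x) \ {1} from ?_,
    measure_sdiff_null (measure_singleton _), Real.volume_Ioc, sub_zero]
  ext y
  constructor
  · rintro ⟨u, h, rfl⟩
    exact ⟨⟨u.2.1, (G _ _).1 h⟩, u.2.2.ne⟩
  · rintro ⟨⟨a, b⟩, c⟩
    exact ⟨⟨y, a, lt_of_le_of_ne (b.trans (cdf_le_one _ _)) c⟩, (G _ _).2 b, rfl⟩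

end Pool.Agent.H.MP_fe632d_an
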