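import Mathlib
import Pool.Agent.H.MP_fe632d_an.A

set_option autoImplicit false

namespace Pool.Agent.H.MP_fe632d_an

open Set Filter Topology InnerProductSpace MeasureTheory Function ContinuousLinearMap ProbabilityTheory
open scoped InnerProductSpace ENNReal NNReal

variable {X Y Z : Type} [MeasurableSpace X] [MeasurableSpace Y] [MeasurableSpace Z]

/-- square integrable classes -/
noncomputable abbrev L2 (μ : Measure X) := Lp ℂ 2 μ

/-- bounded operators -/
noncomputable abbrev Op (μ : Measure X) (ν : Measure Y) := L2 μ →L[ℂ] L2 ν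

variable {μ : Measure X} {ν : Measure Y} {ρ : Measure Z}

/-- supports grow by at most the factor `c` -/
def Ex (c : ℝ≥0) (a : Op μ ν) : Prop := ∀ ξ, ν (support (a ξ)) ≤ c * μ (support ξ)

/-- support expansion at most some constant -/
def SE (a : Op μ ν) : Prop := ∃ c, Ex c a ∧ Ex c (adjoint a)

/-- the support expansion algebra -/
def Cu (μ : Measure X) : Set (Op μ μ) := closure {a | SE a}

theorem Ex.mono {c d : ℝ≥0} {a : Op μ ν} (h : Ex c a) (e : c ≤ d) : Ex d a :=
  fun ξ => (h ξ).trans (by gcongr)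

theorem Ex.add {c d : ℝ≥0} {a b : Op μ ν} (h : Ex c a) (k : Ex d b) : Ex (c + d) (a + b) := fun ξ => by
  refine (measure_mono_ae (t := support (a ξ) ∪ support (b ξ)) ?_).trans
    ((measure_union_le _ _).trans ((add_le_add (h ξ) (k ξ)).trans_eq (by push_cast; ring)))
  filter_upwards [Lp.coeFn_add (a ξ) (b ξ)] with x e hx
  exact support_add (a ξ) (b ξ) fun h => hx (e.trans h)

theorem Ex.smul {c : ℝ≥0} {a : Op μ ν} (h : Ex c a) (z : ℂ) : Ex c (z • a) := fun ξ => by
  refine (measure_mono_ae ?_).trans (h ξ)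
  filter_upwards [Lp.coeFn_smul z (a ξ)] with x e hx h
  exact hx (e.trans (by simp [h]))

theorem Ex.comp {c d : ℝ≥0} {a : Op ν ρ} {b : Op μ ν} (h : Ex c a) (k : Ex d b) :
    Ex (c * d) (a ∘L b) := fun ξ =>
  (h _).trans ((mul_le_mul_right (k ξ) _).trans_eq (by push_cast; ring))

theorem SE.comp {a : Op ν ρ} {b : Op μ ν} : SE a → SE b → SE (a ∘L b) :=
  fun ⟨c, h1, h2⟩ ⟨d, k1, k2⟩ => ⟨_, h1.comp k1, by rw [adjoint_comp, mul_comm]; exact k2.comp h2⟩

theorem SE.adj {a : Op μ ν} : SE a → SE (adjoint a) :=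
  fun ⟨c, h1, h2⟩ => ⟨c, h2, by rwa [adjoint_adjoint]⟩

variable (μ ν) in
/-- as a submodule -/
def SM : Submodule ℂ (Op μ ν) where
  carrier := {a | SE a}
  add_mem' := fun ⟨c, h1, h2⟩ ⟨d, k1, k2⟩ => ⟨_, h1.add k1, by rw [map_add]; exact h2.add k2⟩
  zero_mem' := by
    have : ∀ {X Y : Type} [MeasurableSpace X] [MeasurableSpace Y] (μ : Measure X) (ν : Measure Y),
        Ex 0 (0 : Op μ ν) := fun μ ν ξ => (measure_mono_null_ae
      ((Lp.coeFn_zero ℂ 2 ν).mono fun x e hx => hx e) measure_empty).trans_le zero_le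
    exact ⟨0, this _ _, by rw [map_zero]; exact this _ _⟩
  smul_mem' := fun z a ⟨c, h1, h2⟩ => ⟨c, h1.smul z, by rw [map_smulₛₗ]; exact h2.smul _⟩

theorem ms (ξ : L2 μ) : MeasurableSet (support ξ) :=
  (Lp.stronglyMeasurable ξ).measurable (measurableSet_singleton 0).compl

theorem cp (a : Op ν μ) (φ : X → Y) (hφ : Measurable φ) (h : ∀ ξ, a ξ =ᵐ[μ] ξ ∘ φ) (c : ℝ≥0)
    (h1 : ∀ B, MeasurableSet B → μ (φ ⁻¹' B) ≤ c * ν B)
    (h2 : ∀ B, MeasurableSet B → ∃ C, MeasurableSet C ∧ ν C ≤ c * μ B ∧ ∀ᵐ x ∂μ, x ∈ B → φ x ∈ C) :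
    SE a := by
  refine ⟨c, fun ξ => (measure_mono_ae ((h ξ).mono fun x e hx h => hx (e.trans h))).trans
    (h1 _ (ms ξ)), fun η => ?_⟩
  obtain ⟨C, c1, c2, c3⟩ := h2 _ (ms η)
  have q : Measure.QuasiMeasurePreserving φ μ ν := ⟨hφ, .mk fun B b1 b2 => by
    rw [Measure.map_apply hφ b1, ← nonpos_iff_eq_zero]
    simpa [b2] using h1 B b1⟩
  have m := (Lp.memLp (adjoint a η)).indicator c1.compl
  have e : ⟪m.toLp, m.toLp⟫_ℂ = 0 := by
    have : ⟪m.toLp, m.toLp⟫_ℂ = ⟪adjoint a η, m.toLp⟫_ℂ := integral_congr_ae (m.coeFn_toLp.mono fun y e => by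
      by_cases h : y ∈ Cᶜ <;> simp [e, h])
    rw [this, adjoint_inner_left]
    refine integral_eq_zero_of_ae ?_
    filter_upwards [h m.toLp, q.ae m.coeFn_toLp, c3] with x e1 e2 e3
    by_cases h : η x = 0
    · simp [h]
    · simp [e1, e2, e3 h]
  refine (measure_mono_ae ?_).trans c2
  filter_upwards [m.coeFn_toLp, Lp.coeFn_zero ℂ 2 ν] with y e1 e2 hy
  rw [inner_self_eq_zero.1 e, e2] at e1
  exact by_contra fun h => hy ((indicator_of_mem (s := Cᶜ) h _).symm.trans e1.symm)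

theorem koop {φ : X → Y} (h : MeasurableEmbedding φ) (k : MeasurePreserving φ μ ν) :
    SE (Lp.compMeasurePreservingₗᵢ ℂ φ k).toContinuousLinearMap :=
  cp _ φ h.measurable (fun ξ => Lp.coeFn_compMeasurePreserving ξ k) 1
    (fun B b => by simp [k.measure_preimage b.nullMeasurableSet]) fun B b =>
      ⟨φ '' B, h.measurableSet_image.2 b, by
        rw [← k.measure_preimage (h.measurableSet_image.2 b).nullMeasurableSet,
          h.injective.preimage_image]; simp, .of_forall fun x hx => ⟨x, hx, rfl⟩⟩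

variable (μ ν) in
/-- some operator of bounded expansion matches the constants -/
def Rel [IsFiniteMeasure μ] [IsFiniteMeasure ν] : Prop :=
  ∃ W : Op μ ν, SE W ∧ W (Lp.const 2 μ 1) = Lp.const 2 ν 1

theorem rel [IsFiniteMeasure μ] [IsFiniteMeasure ν] {φ : X → Y} (h : MeasurableEmbedding φ)
    (k : MeasurePreserving φ μ ν) : Rel ν μ ∧ Rel μ ν := by
  have : Lp.compMeasurePreservingₗᵢ ℂ φ k (Lp.const 2 ν 1) = Lp.const 2 μ (1 : ℂ) := Lp.ext (by
    filter_upwards [Lp.coeFn_compMeasurePreserving (Lp.const 2 ν (1 : ℂ)) k, Lp.coeFn_const 2 μ (1 : ℂ),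
      k.quasiMeasurePreserving.ae (Lp.coeFn_const 2 ν (1 : ℂ))] with x a b c
    exact (a.trans c).trans b.symm)
  refine ⟨⟨_, koop h k, this⟩, _, (koop h k).adj, ?_⟩
  rw [← this]
  exact congr($(LinearIsometry.adjoint_comp_self _) _)

theorem Rel.trans [IsFiniteMeasure μ] [IsFiniteMeasure ν] [IsFiniteMeasure ρ] :
    Rel μ ν → Rel ν ρ → Rel μ ρ := fun ⟨_, a, b⟩ ⟨_, c, d⟩ => ⟨_, c.comp a, by simp [b, d]⟩

theorem relU [StandardBorelSpace X] [IsProbabilityMeasure μ] [NullSingletonClass μ] :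
    Rel μ U ∧ Rel U μ := by
  have e := measurableEmbedding_embeddingReal X
  have := Measure.isProbabilityMeasure_map (μ := μ) e.measurable.aemeasurable
  have : NullSingletonClass (μ.map (embeddingReal X)) := ⟨fun x => by
    rw [e.map_apply]
    exact ((finite_singleton x).preimage e.injective.injOn).measure_zero μ⟩
  obtain ⟨q, a, b⟩ := quant (μ.map (embeddingReal X))
  have r := rel e ⟨e.measurable, rfl⟩ (μ := μ)
  exact ⟨r.2.trans (rel a b).1, (rel a b).2.trans r.1⟩

theorem ind [IsProbabilityMeasure ν] (A : Set X) (h : MeasurableSet A) (a0 : μ A ≠ 0) (a1 : μ A ≠ ∞)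
    (r : haveI := cond_isProbabilityMeasure_of_finite a0 a1; Rel ν μ[|A]) (z : ℂ) :
    ∃ V : Op ν μ, SE V ∧ V (Lp.const 2 ν 1) = indicatorConstLp 2 h a1 z := by
  have := cond_isProbabilityMeasure_of_finite a0 a1
  have l : μ[|A] ≤ (μ A)⁻¹ • μ := fun s => mul_le_mul_right (Measure.restrict_le_self s) _
  have i := ENNReal.inv_ne_top.2 a0
  have e := Lp.coeFn_LpToLpOfMeasureLeSMul (E := ℂ) (p := 2) i l
  let R : Op μ μ[|A] :=
    { toFun := Lp.LpToLpOfMeasureLeSMul i l
      map_add' := map_add _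
      map_smul' c f := Lp.ext (by
        filter_upwards [e (c • f), e f, Lp.coeFn_smul c (Lp.LpToLpOfMeasureLeSMul i l f),
          cond_absolutelyContinuous.ae_le (Lp.coeFn_smul c f)] with x a b d g
        exact a.trans (g.trans (by rw [RingHom.id_apply, d, Pi.smul_apply, Pi.smul_apply, b])))
      cont := map_continuous _ }
  have s : SE R := cp R id measurable_id e ((μ A)⁻¹ + μ A).toNNReal (fun B _ => (l B).trans (by
      rw [ENNReal.coe_toNNReal (by simp [a0, a1])]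
      exact mul_le_mul_left le_self_add _)) fun B b => ⟨A ∩ B, h.inter b, by
      rw [ENNReal.coe_toNNReal (by simp [a0, a1]), cond_apply h, add_mul,
        ENNReal.mul_inv_cancel_left a0 a1]
      exact le_add_self, (ae_cond_mem h).mono fun x a b => ⟨a, b⟩⟩
  obtain ⟨W, w1, w2⟩ := r
  refine ⟨(z * μ.real A) • (adjoint R ∘L W), (SM _ _).smul_mem _ (s.adj.comp w1),
    ext_inner_right ℂ fun ξ => ?_⟩
  have : ⟪Lp.const 2 μ[|A] (1 : ℂ), R ξ⟫_ℂ = ∫ x, ξ x ∂μ[|A] := integral_congr_ae (by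
    filter_upwards [e ξ, Lp.coeFn_const 2 μ[|A] (1 : ℂ)] with x a b
    have a : R ξ x = ξ x := a
    simp [a, b])
  have n : (μ.real A : ℂ) ≠ 0 := by simpa [Measure.real, ENNReal.toReal_eq_zero_iff] using ⟨a0, a1⟩
  rw [_root_.smul_apply, ContinuousLinearMap.comp_apply, w2, inner_smul_left, adjoint_inner_left, this,
    L2.inner_indicatorConstLp_eq_setIntegral_inner, ProbabilityTheory.cond, integral_smul_measure]
  simp only [Measure.real] at n
  simp [integral_mul_const, Measure.real]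
  field_simp

end Pool.Agent.H.MP_fe632d_an
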