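import Mathlib
import Pool.Agent.H.MP_fe632d_an.B

set_option autoImplicit false

namespace Pool.Agent.H.MP_fe632d_an

open Set Filter Topology InnerProductSpace MeasureTheory Function ContinuousLinearMap ProbabilityTheory
open UnitAddTorus
open scoped InnerProductSpace ENNReal NNReal

/-- Haar probability measure on the two-torus -/
noncomputable def τ : Measure (UnitAddTorus (Fin 2)) := Measure.pi fun _ => AddCircle.haarAddCircle

instance : τ.IsAddHaarMeasure := by unfold τ; infer_instance

instance : IsProbabilityMeasure τ := by unfold τ; infer_instance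

instance : NullSingletonClass τ := by
  have : Nontrivial UnitAddCircle := ⟨0, ((1/2 : ℝ) : UnitAddCircle), by
    rw [ne_comm, Ne, AddCircle.coe_eq_zero_iff]
    rintro ⟨n, h⟩
    have : (2 * n : ℝ) = 1 := by simp at h; linarith
    norm_cast at this
    omega⟩
  have : NullSingletonClass (AddCircle.haarAddCircle : Measure UnitAddCircle) :=
    Measure.IsAddHaarMeasure.nullSingletonClass _
  unfold τ; infer_instance

/-- a parabolic automorphism of the torus -/
noncomputable def T (k : ℤ) : UnitAddTorus (Fin 2) ≃ₜ+ UnitAddTorus (Fin 2) where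
  toFun t := ![t 0 - (2 * k) • (t 0 + k • t 1), t 1 + (2 : ℤ) • (t 0 + k • t 1)]
  invFun t := ![t 0 + (2 * k) • (t 0 + k • t 1), t 1 - (2 : ℤ) • (t 0 + k • t 1)]
  left_inv t := by ext i; fin_cases i <;> simp <;> module
  right_inv t := by ext i; fin_cases i <;> simp <;> module
  map_add' s t := by ext i; fin_cases i <;> simp <;> module
  continuous_toFun := by fun_prop
  continuous_invFun := by fun_prop

/-- the dual action -/
def G (k : ℤ) : (Fin 2 → ℤ) ≃ (Fin 2 → ℤ) where
  toFun n := ![n 0 + 2 * (n 1 - k * n 0), n 1 + 2 * k * (n 1 - k * n 0)]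
  invFun n := ![n 0 - 2 * (n 1 - k * n 0), n 1 - 2 * k * (n 1 - k * n 0)]
  left_inv t := by ext i; fin_cases i <;> simp <;> ring
  right_inv t := by ext i; fin_cases i <;> simp <;> ring

theorem TG (k : ℤ) (n : Fin 2 → ℤ) (t : UnitAddTorus (Fin 2)) : mFourier n (T k t) = mFourier (G k n) t := by
  simp only [mFourier, ContinuousMap.coe_mk, Fin.prod_univ_two, fourier_apply, ← Circle.coe_mul,
    ← AddCircle.toCircle_add]
  congr 2
  simp [T, G]
  module

theorem torus : rankOne ℂ (Lp.const 2 τ (1 : ℂ)) (Lp.const 2 τ (1 : ℂ)) ∈ Cu τ := by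
  let b : HilbertBasis (Fin 2 → ℤ) ℂ (L2 τ) := mFourierBasis
  have cb : ∀ n, b n =ᵐ[τ] mFourier n := fun n => by
    rw [show b n = mFourierLp 2 n from congrFun coe_mFourierBasis n]
    exact coeFn_mFourierLp 2 n
  have b0 : b 0 = Lp.const 2 τ 1 := Lp.ext (by
    filter_upwards [cb 0, Lp.coeFn_const 2 τ (1 : ℂ)] with x e f
    rw [e, f, mFourier_zero]; rfl)
  have mp : ∀ k, MeasurePreserving (T k) τ τ := fun k =>
    (T k).toAddEquiv.toAddMonoidHom.measurePreserving (T k).continuous (T k).surjective rfl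
  refine Metric.mem_closure_iff.2 fun ε e0 => ?_
  obtain ⟨N, hN⟩ := exists_nat_gt (4 / ε ^ 2)
  have n0 : (0 : ℝ) < N := lt_trans (by positivity) hN
  have := pp b 0 N (by exact_mod_cast n0) (fun i => Lp.compMeasurePreservingₗᵢ ℂ (T (3 * i)) (mp _))
    (fun i => G (3 * i)) (fun i => {n | n ≠ 0 ∧ |n 1 - 3 * i * n 0| ≤ |n 0|}) (fun i n => Lp.ext (by
      filter_upwards [Lp.coeFn_compMeasurePreserving (b n) (mp (3 * i)), cb (G (3 * i) n),
        (mp (3 * i)).quasiMeasurePreserving.ae (cb n)] with x e f g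
      exact e.trans (g.trans ((TG _ _ _).trans f.symm)))) (fun i => by ext i; fin_cases i <;> simp [G])
    (fun i j h => disjoint_left.2 fun n ⟨a, c⟩ ⟨_, d⟩ => a (by
      have : n 0 = 0 := by
        by_contra z
        have : 1 ≤ |(i : ℤ) - j| := Int.one_le_abs (by omega)
        have e : |n 1 - 3 * j * n 0 - (n 1 - 3 * i * n 0)| = 3 * (|(i : ℤ) - j| * |n 0|) := by
          rw [← abs_mul, ← abs_of_pos (show (0 : ℤ) < 3 by norm_num), ← abs_mul]
          congr 1; simp; ring
        nlinarith [abs_sub (n 1 - 3 * j * n 0) (n 1 - 3 * i * n 0), abs_pos.2 z]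
      ext i; fin_cases i
      · exact this
      · simpa [this] using c))
    (fun i n a c => by
      have c : |n 0| < |n 1 - 3 * i * n 0| := lt_of_not_ge fun h => c ⟨a, h⟩
      have e : G (3 * i) n 1 - 3 * i * G (3 * i) n 0 = n 1 - 3 * i * n 0 := by simp [G]; ring
      have f : G (3 * i) n 0 = n 0 + 2 * (n 1 - 3 * i * n 0) := by simp [G]
      refine ⟨fun h => ?_, ?_⟩
      · rw [h, Pi.zero_apply] at f; grind
      · rw [e, f]; grind) (ε / 2) (by linarith)
  refine ⟨_, (SM τ τ).smul_mem (N : ℂ)⁻¹ ((SM τ τ).sum_mem (t := Finset.range N) fun i _ =>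
    koop (T (3 * i)).toHomeomorph.measurableEmbedding (mp _)), ?_⟩
  rw [dist_comm, dist_eq_norm, ← b0]
  refine this.trans_lt ?_
  rw [div_lt_iff₀ (by positivity)] at hN
  have : 1 / (ε / 2 * N) < ε / 2 := by rw [div_lt_iff₀ (by positivity)]; nlinarith
  linarith

end Pool.Agent.H.MP_fe632d_an
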