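import Mathlib
import Pool.Agent.H.MP_fe632d_an.C

set_option autoImplicit false

namespace Pool.Agent.H.MP_fe632d_an

open Set Filter Topology InnerProductSpace MeasureTheory Function ContinuousLinearMap ProbabilityTheory
open scoped InnerProductSpace ENNReal NNReal

section
variable {H : Type*} [NormedAddCommGroup H] [InnerProductSpace ℂ H] [CompleteSpace H]

theorem dens (D : Set H) (hD : ∀ ξ, (∀ f ∈ D, ⟪f, ξ⟫_ℂ = 0) → ξ = 0) (S : Submodule ℂ (H →L[ℂ] H))
    (hS : IsClosed (S : Set (H →L[ℂ] H))) (h : ∀ f ∈ D, ∀ g ∈ D, rankOne ℂ f g ∈ S) (K : H →L[ℂ] H)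
    (hK : IsCompactOperator K) : K ∈ S := by
  have k : ∀ W : Submodule ℂ H, IsClosed (W : Set H) → D ⊆ W → ∀ f, f ∈ W := fun W c s f => by
    have := c.completeSpace_coe
    rw [W.orthogonal_eq_bot_iff.1 (eq_bot_iff.2 fun ξ e => hD ξ fun f hf => e f (s hf))]
    trivial
  refine cpt S hS (fun f g => k ⟨⟨⟨{g | rankOne ℂ f g ∈ S}, fun a b => ?_⟩, ?_⟩, fun c g a => ?_⟩
    (hS.preimage (rankOne ℂ f).continuous) (fun g hg => ?_) g) K hK
  · simpa using S.add_mem a b
  · simp
  · simpa using S.smul_mem _ a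
  refine k ⟨⟨⟨{f | rankOne ℂ f g ∈ S}, fun a b => ?_⟩, ?_⟩, fun c g a => ?_⟩
    (hS.preimage (f := fun f => rankOne ℂ f g) (by fun_prop)) (fun f hf => h f hf g hg) f
  · simpa using S.add_mem a b
  · simp
  · simpa using S.smul_mem _ a

omit [CompleteSpace H] in
theorem rc (f g : H) : IsCompactOperator (rankOne ℂ f g) :=
  (isCompactOperator_of_locallyCompactSpace_rng (toSpanSingleton ℂ f)).comp_clm (innerSL ℂ g)

end

variable {X : Type} [MeasurableSpace X] [StandardBorelSpace X] {μ : Measure X}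

theorem diffuse [NullSingletonClass μ] (K : Op μ μ) (hK : IsCompactOperator K) : K ∈ Cu μ := by
  refine dens {f | ∃ A h a, μ A ≠ 0 ∧ f = indicatorConstLp 2 (s := A) h a 1} (fun ξ h => Lp.ext
    ((Lp.ae_eq_zero_of_forall_setIntegral_eq_zero ξ (by simp) (by simp) (fun s _ a =>
      integrableOn_Lp_of_measure_ne_top ξ (by simp) a.ne) fun s m a => ?_).trans
      (Lp.coeFn_zero _ _ _).symm)) (SM μ μ).topologicalClosure isClosed_closure ?_ K hK
  · by_cases z : μ s = 0
    · exact setIntegral_measure_zero _ z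
    · exact (L2.inner_indicatorConstLp_one m a.ne ξ).symm.trans (h _ ⟨s, m, a.ne, z, rfl⟩)
  have k : ∀ A h a, μ A ≠ 0 → ∃ V : Op τ μ, SE V ∧ V (Lp.const 2 τ 1) = indicatorConstLp 2 (s := A) h a 1 :=
    fun A h a z => by
      have := cond_isProbabilityMeasure_of_finite z a
      have : NullSingletonClass μ[|A] := ⟨fun x => cond_absolutelyContinuous (measure_singleton x)⟩
      exact ind A h z a (relU.1.trans relU.2) 1
  rintro _ ⟨A, h, a, z, rfl⟩ _ ⟨B, h', b, w, rfl⟩
  obtain ⟨V, v1, v2⟩ := k A h a z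
  obtain ⟨W, w1, w2⟩ := k B h' b w
  have := map_mem_closure (f := fun P : Op τ τ => V ∘L P ∘L adjoint W) (t := {a | SE a}) (by fun_prop)
    torus fun P p => v1.comp (SE.comp p w1.adj)
  rwa [rankOne_comp, adjoint_adjoint, comp_rankOne, v2, w2] at this

variable [SigmaFinite μ]

variable (μ) in
/-- indicator of a point -/
noncomputable def pt (x : X) : L2 μ :=
  indicatorConstLp 2 (measurableSet_singleton x) (measure_singleton_lt_top (μ := μ)).ne 1

theorem pt_inner (x : X) (ξ : L2 μ) : ⟪pt μ x, ξ⟫_ℂ = μ.real {x} • ξ x := by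
  rw [pt, L2.inner_indicatorConstLp_one, integral_singleton]

theorem pt_ne {x : X} (h : μ {x} ≠ 0) : μ.real {x} ≠ 0 :=
  ENNReal.toReal_ne_zero.2 ⟨h, measure_singleton_lt_top.ne⟩

theorem atom {x y : X} (h : μ {x} ≠ 0) (k : μ {y} ≠ 0) : SE (rankOne ℂ (pt μ x) (pt μ y)) := by
  have : ∀ x y : X, μ {y} ≠ 0 → Ex (μ {x} / μ {y}).toNNReal (rankOne ℂ (pt μ x) (pt μ y)) :=
    fun x y k ξ => by
    have f := (measure_singleton_lt_top (μ := μ) (a := y)).ne
    rw [rankOne_apply, ENNReal.coe_toNNReal (ENNReal.div_ne_top measure_singleton_lt_top.ne k)]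
    by_cases z : ξ y = 0
    · rw [pt_inner, z, smul_zero, zero_smul]
      exact (measure_mono_null_ae ((Lp.coeFn_zero ℂ 2 μ).mono fun x e hx => hx e)
        measure_empty).trans_le zero_le
    refine (measure_mono_ae (t := {x}) ?_).trans ((ENNReal.div_mul_cancel k f).symm.trans_le
      (mul_le_mul_right (measure_mono (singleton_subset_iff.2 z)) _))
    filter_upwards [Lp.coeFn_smul ⟪pt μ y, ξ⟫_ℂ (pt μ x), indicatorConstLp_coeFn (p := 2)
      (hs := measurableSet_singleton x) (hμs := (measure_singleton_lt_top (μ := μ)).ne) (c := (1 : ℂ))]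
      with w a b c
    by_contra d
    exact c (a.trans (by rw [Pi.smul_apply, show pt μ x w = _ from b, indicator_of_notMem (s := {x}) d, smul_zero]))
  exact ⟨_, (this x y k).mono le_self_add, by rw [adjoint_rankOne]; exact (this y x h).mono le_add_self⟩

theorem atomic (h : μ {x | μ {x} = 0} = 0) (K : Op μ μ) (hK : IsCompactOperator K) : K ∈ Cu μ := by
  refine dens (pt μ '' {x | μ {x} ≠ 0}) (fun ξ k => Lp.ext ?_) (SM μ μ).topologicalClosure
    isClosed_closure ?_ K hK
  · filter_upwards [measure_eq_zero_iff_ae_notMem.1 h, Lp.coeFn_zero ℂ 2 μ] with x a b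
    exact ((smul_eq_zero.1 ((pt_inner x ξ).symm.trans (k _ ⟨x, a, rfl⟩))).resolve_left (pt_ne a)).trans
      b.symm
  rintro _ ⟨x, a, rfl⟩ _ ⟨y, b, rfl⟩
  exact subset_closure (atom a b)

theorem mixed {x : X} (h : μ {x} ≠ 0) (k : μ {x | μ {x} = 0} ≠ 0) :
    ∃ K : Op μ μ, IsCompactOperator K ∧ K ∉ Cu μ := by
  have cm : MeasurableSet {x | μ {x} = 0} := by
    have := (Measure.countable_meas_pos_of_disjoint_iUnion (μ := μ) (As := fun x : X => {x})
      measurableSet_singleton fun a b c => disjoint_singleton.2 c).measurableSet.compl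
    convert this using 1
    ext; simp
  obtain ⟨B, b1, b2, b3, b4⟩ := Measure.exists_subset_measure_lt_top cm (pos_iff_ne_zero.2 k)
  let f : L2 μ := indicatorConstLp 2 b1 b4.ne 1
  refine ⟨_, rc (pt μ x) f, fun c => ?_⟩
  have : ∀ a : Op μ μ, SE a → ⟪pt μ x, a f⟫_ℂ = 0 := by
    rintro a ⟨c, c1, -⟩
    let η := adjoint a (pt μ x)
    have z : μ (B ∩ support η) = 0 := by
      letI := upgradeStandardBorel X
      have : IsFiniteMeasure (μ.restrict B) := isFiniteMeasure_restrict.2 b4.ne
      refine measure_null_of_locally_null _ fun y hy => ?_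
      obtain ⟨O, o1, o2, o3⟩ := Set.exists_isOpen_lt_of_lt (μ := μ.restrict B) {y} (μ {x} / c)
        (((Measure.restrict_le_self _).trans_eq (b2 hy.1)).trans_lt
          (ENNReal.div_pos h ENNReal.coe_ne_top))
      refine ⟨_, inter_mem_nhdsWithin _ (o2.mem_nhds (o1 rfl)), ?_⟩
      have j : MeasurableSet (O ∩ B) := o2.measurableSet.inter b1
      rw [Measure.restrict_apply o2.measurableSet] at o3
      have m := (Lp.memLp η).indicator j
      have e : ⟪m.toLp, m.toLp⟫_ℂ = 0 := by
        have : ⟪m.toLp, m.toLp⟫_ℂ = ⟪η, m.toLp⟫_ℂ := integral_congr_ae (m.coeFn_toLp.mono fun y e => by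
          by_cases h : y ∈ O ∩ B <;> simp [e, h])
        rw [this, adjoint_inner_left, pt_inner]
        refine smul_eq_zero_of_right _ (by_contra fun n => ?_)
        have s : μ (support m.toLp) ≤ μ (O ∩ B) := measure_mono_ae (m.coeFn_toLp.mono fun w e t =>
          by_contra fun n => t (e.trans (indicator_of_notMem n _)))
        exact (ENNReal.mul_lt_of_lt_div' (s.trans_lt o3)).not_ge
          ((measure_mono (singleton_subset_iff.2 n)).trans (c1 _))
      refine measure_eq_zero_iff_ae_notMem.2 ?_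
      filter_upwards [m.coeFn_toLp, Lp.coeFn_zero ℂ 2 μ] with w e1 e2 hw
      rw [inner_self_eq_zero.1 e, e2] at e1
      exact hw.1.2 ((indicator_of_mem (s := O ∩ B) ⟨hw.2, hw.1.1⟩ _).symm.trans e1.symm)
    rw [← adjoint_inner_left, ← inner_conj_symm, L2.inner_indicatorConstLp_one, map_eq_zero]
    refine setIntegral_eq_zero_of_ae_eq_zero ?_
    filter_upwards [measure_eq_zero_iff_ae_notMem.1 z] with w a b
    exact by_contra fun n => a ⟨b, n⟩
  have := (isClosed_eq (f := fun a : Op μ μ => ⟪pt μ x, a f⟫_ℂ) (by fun_prop)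
    continuous_const).closure_subset_iff.2 this c
  simp only [mem_ofPred_eq, rankOne_apply, inner_smul_right, mul_eq_zero, inner_self_eq_zero] at this
  rcases this with e | e <;> have := congrArg norm e
  · simp [f, norm_indicatorConstLp, Measure.real, ENNReal.toReal_eq_zero_iff, b3.ne', b4.ne] at this
  · simp [pt, norm_indicatorConstLp, pt_ne h] at this

end Pool.Agent.H.MP_fe632d_an
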