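import Mathlib
import Pool.Agent.H.MP_fe632d_an.D

set_option autoImplicit false

namespace Pool.Agent.H.MP_fe632d_an

open MeasureTheory ContinuousLinearMap
open scoped ENNReal NNReal

variable {H : Type} [NormedAddCommGroup H] [InnerProductSpace ℂ H] [CompleteSpace H]

/-- the adjoint -/
noncomputable def Adj (a : H →L[ℂ] H) : H → H := adjoint a

/-- `a` and its adjoint increase the size `s` by at most a constant factor -/
def Expa (s : H → ℝ≥0∞) (a : H →L[ℂ] H) : Prop :=
  ∃ c : ℝ≥0, ∀ ξ, s (a ξ) ≤ c * s ξ ∧ s (Adj a ξ) ≤ c * s ξ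

/-- norm closure of those operators -/
def Alg (s : H → ℝ≥0∞) : Set (H →L[ℂ] H) := closure {a | Expa s a}

/-- every compact operator is in the closure -/
def AllC (s : H → ℝ≥0∞) : Prop := ∀ K : H →L[ℂ] H, IsCompactOperator K → K ∈ Alg s

/-- some nonzero compact operator is in the closure -/
def SomeC (s : H → ℝ≥0∞) : Prop := ∃ K : H →L[ℂ] H, K ≠ 0 ∧ IsCompactOperator K ∧ K ∈ Alg s

/-- measure of the support -/
noncomputable def sz {X : Type} [MeasurableSpace X] (μ : Measure X) (ξ : Lp ℂ 2 μ) : ℝ≥0∞ :=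
  μ (Function.support ξ)

theorem alg {X : Type} [MeasurableSpace X] (μ : Measure X) : Alg (sz μ) = Cu μ :=
  congrArg closure (Set.ext fun _ => exists_congr fun _ => forall_and)

end Pool.Agent.H.MP_fe632d_an
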